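import Pool.Agent.H89.FM.Targets2

/-!
# Fourth moment (`MP_52e316_nt`), row QZV: the metric of the root of a form
-/

set_option autoImplicit false

namespace Pool.Agent.H51.FM

open Pool.Agent.H31.CN Pool.Agent.H89.FM

theorem pf_QZV : T_QZV := by
  intro Q v h1 h2
  have ha : (0 : ℝ) < Q.1 := by exact_mod_cast h1
  have hD : (0 : ℝ) < dsc Q := by exact_mod_cast h2
  have hs : 0 < Real.sqrt (dsc Q) := Real.sqrt_pos.2 hD
  have hs2 : Real.sqrt (dsc Q) ^ 2 = 4 * (Q.1 : ℝ) * Q.2.2 - (Q.2.1 : ℝ) ^ 2 := by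
    rw [Real.sq_sqrt hD.le]
    unfold dsc
    push_cast
    ring
  unfold qz zx zy val
  push_cast
  set s := Real.sqrt (dsc Q)
  set a : ℝ := (Q.1 : ℝ)
  set b : ℝ := (Q.2.1 : ℝ)
  set c : ℝ := (Q.2.2 : ℝ)
  set x : ℝ := (v.1 : ℝ)
  set y : ℝ := (v.2 : ℝ)
  have e1 : (x + y * (b / (2 * a))) ^ 2 + (y * (s / (2 * a))) ^ 2 =
      (a * x ^ 2 + b * x * y + c * y ^ 2) / a := by
    field_simp
    linear_combination y ^ 2 * hs2
  rw [e1]
  field_simp

end Pool.Agent.H51.FM
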