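import Pool.Agent.H89.FM.Targets2
import Pool.Agent.H61.FM.Targets

/-!
# Fourth moment (`MP_52e316_nt`), row EZR: the rotated series of the completed Epstein zeta function
-/

set_option autoImplicit false

namespace Pool.Agent.H51.FM

open Pool.Agent.H31.CN Pool.Agent.H89.FM

theorem pf_EZR (hFLS : T_FLS) (hROT : T_ROT) : Pool.Agent.H61.FM.T_EZR := by
  classical
  intro τ s x y hτ hre hy
  have h1 : (⊤ : AddSubgroup (ℤ × ℤ)) ∈ Ls 1 := by
    rw [(hFLS 1 ⊤ le_rfl).1]
    exact AddSubgroup.index_top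
  have h2 := hROT 1 ⊤ x y s τ le_rfl h1 hy hτ hre
  refine h2.congr_fun ?_
  intro v
  by_cases hv : v = 0
  · rw [if_pos hv, if_neg (fun h => h.2 hv)]
  · rw [if_neg hv, if_pos ⟨AddSubgroup.mem_top v, hv⟩, Nat.cast_one, div_one]

end Pool.Agent.H51.FM
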