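import Pool.Agent.H89.FM.Targets2

/-!
# Fourth moment (`MP_52e316_nt`), row H1: the sum of the weights of the blocks, the vector `(1, 0)`
-/

set_option autoImplicit false

namespace Pool.Agent.H51.FM

open Pool.Agent.H31.CN Pool.Agent.H89.FM

theorem pf_H1 : T_H1 := by
  have hl2 : 1 / 2 < Real.log 2 := by
    have := Real.log_two_gt_d9
    linarith
  refine ⟨8, by norm_num, ?_⟩
  intro ρ A η T hρ hA hη h
  have hρ0 : 0 < ρ := by linarith
  have hA0 : 0 < A := by linarith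
  have hlA : 0 ≤ Real.log A := Real.log_nonneg hA
  have hfl : ⌊A⌋₊ ≠ 0 := by
    have : 1 ≤ ⌊A⌋₊ := Nat.le_floor (by simpa using hA)
    omega
  have hnr : nr ρ (1, 0) = 1 / ρ := by
    unfold nr
    norm_num
  have hbase : ∀ a ∈ T, (1 : ℝ) ≤ a.2.1 ∧ (a.2.1 : ℝ) ≤ 4 * ρ * 2 ^ a.2.2 ∧
      (2 : ℝ) ^ a.2.2 ≤ A ∧ (a.2.1 : ℝ) ≤ A ∧ hw ρ η a = 1 / 2 ^ a.2.2 + η * ρ * 2 ^ a.2.2 ∧
      (2 : ℝ) ^ a.2.2 ≤ A * (1 / (a.2.1 : ℝ)) := by
    intro a ha
    obtain ⟨h1, h2, h3, h4⟩ := h a ha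
    have h5 : (1 : ℝ) ≤ a.2.1 := by exact_mod_cast h2
    have h6 : (1 : ℝ) ≤ 2 ^ a.2.2 := one_le_pow₀ (by norm_num)
    refine ⟨h5, ?_, ?_, ?_, ?_, ?_⟩
    · rw [h1, hnr, mul_one_div, div_le_iff₀ hρ0] at h3
      linarith
    · nlinarith
    · nlinarith
    · unfold hw
      rw [h1, hnr]
      have h7 : (4 : ℝ) ^ a.2.2 = 2 ^ a.2.2 * 2 ^ a.2.2 := by
        rw [← mul_pow]
        norm_num
      rw [h7]
      field_simp
    · rw [mul_one_div, le_div_iff₀ (by linarith)]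
      linarith
  set K := Nat.log 2 ⌊A⌋₊ with hK
  have hmap : ∀ a ∈ T, a.2.2 ∈ Finset.range (K + 1) := by
    intro a ha
    rw [Finset.mem_range]
    refine Nat.lt_succ_of_le ?_
    refine Nat.le_log_of_pow_le one_lt_two (Nat.le_floor ?_)
    push_cast
    exact (hbase a ha).2.2.1
  rw [← Finset.sum_fiberwise_of_maps_to hmap]
  have hblock : ∀ k ∈ Finset.range (K + 1),
      ∑ a ∈ T.filter (fun a => a.2.2 = k), hw ρ η a ≤
        4 * ρ + η * ρ * A * (1 + Real.log A) := by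
    intro k _
    set Tk := T.filter (fun a => a.2.2 = k) with hTk
    have hTk' : ∀ a ∈ Tk, a ∈ T ∧ a.2.2 = k := fun a ha => Finset.mem_filter.1 ha
    have hinj : Set.InjOn (fun a : (ℤ × ℤ) × ℕ × ℕ => a.2.1) Tk := by
      intro a ha b hb hab
      obtain ⟨a1, a2⟩ := hTk' a ha
      obtain ⟨b1, b2⟩ := hTk' b hb
      refine Prod.ext ((h a a1).1.trans (h b b1).1.symm) (Prod.ext hab (a2.trans b2.symm))
    have hcard : (Tk.card : ℝ) ≤ 4 * ρ * 2 ^ k := by
      rw [← Finset.card_image_of_injOn hinj]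
      have h1 : Tk.image (fun a => a.2.1) ⊆ Finset.Icc 1 ⌊4 * ρ * 2 ^ k⌋₊ := by
        intro f hf
        obtain ⟨a, ha, rfl⟩ := Finset.mem_image.1 hf
        obtain ⟨a1, a2⟩ := hTk' a ha
        rw [Finset.mem_Icc]
        refine ⟨(h a a1).2.1, Nat.le_floor ?_⟩
        rw [← a2]
        exact (hbase a a1).2.1
      have h2 := Finset.card_le_card h1
      rw [Nat.card_Icc, Nat.add_sub_cancel] at h2
      have h3 : ((⌊4 * ρ * 2 ^ k⌋₊ : ℕ) : ℝ) ≤ 4 * ρ * 2 ^ k := Nat.floor_le (by positivity)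
      exact le_trans (by exact_mod_cast h2) h3
    have hsum : ∑ a ∈ Tk, 1 / (a.2.1 : ℝ) ≤ 1 + Real.log A := by
      have h0 : ∑ a ∈ Tk, 1 / (a.2.1 : ℝ) =
          ∑ f ∈ (Tk.image (fun a : (ℤ × ℤ) × ℕ × ℕ => a.2.1) : Finset ℕ), 1 / ((f : ℕ) : ℝ) :=
        (Finset.sum_image (f := fun f : ℕ => 1 / (f : ℝ)) hinj).symm
      rw [h0]
      have h1 : (Tk.image (fun a : (ℤ × ℤ) × ℕ × ℕ => a.2.1) : Finset ℕ) ⊆
          Finset.Icc 1 ⌊A⌋₊ := by
        intro f hf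
        obtain ⟨a, ha, rfl⟩ := Finset.mem_image.1 hf
        obtain ⟨a1, a2⟩ := hTk' a ha
        rw [Finset.mem_Icc]
        exact ⟨(h a a1).2.1, Nat.le_floor (hbase a a1).2.2.2.1⟩
      refine (Finset.sum_le_sum_of_subset_of_nonneg h1 fun f _ _ => by positivity).trans ?_
      have h2 := harmonic_floor_le_one_add_log A hA
      rw [harmonic_eq_sum_Icc] at h2
      push_cast at h2
      simpa [one_div] using h2
    calc ∑ a ∈ Tk, hw ρ η a
        ≤ ∑ a ∈ Tk, (1 / 2 ^ k + η * ρ * (A * (1 / (a.2.1 : ℝ)))) := by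
          refine Finset.sum_le_sum fun a ha => ?_
          obtain ⟨a1, a2⟩ := hTk' a ha
          obtain ⟨_, _, _, _, g1, g2⟩ := hbase a a1
          rw [g1]
          rw [a2] at g2 ⊢
          have : η * ρ * 2 ^ k ≤ η * ρ * (A * (1 / (a.2.1 : ℝ))) :=
            mul_le_mul_of_nonneg_left g2 (by positivity)
          linarith
      _ = (Tk.card : ℝ) * (1 / 2 ^ k) + η * ρ * A * ∑ a ∈ Tk, 1 / (a.2.1 : ℝ) := by
          rw [Finset.sum_add_distrib, Finset.sum_const, nsmul_eq_mul, Finset.mul_sum]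
          congr 1
          refine Finset.sum_congr rfl fun a _ => ?_
          ring
      _ ≤ (4 * ρ * 2 ^ k) * (1 / 2 ^ k) + η * ρ * A * (1 + Real.log A) :=
          add_le_add (mul_le_mul_of_nonneg_right hcard (by positivity))
            (mul_le_mul_of_nonneg_left hsum (by positivity))
      _ = 4 * ρ + η * ρ * A * (1 + Real.log A) := by
          field_simp
  have hKA : (K : ℝ) * Real.log 2 ≤ Real.log A := by
    have h3 : 2 ^ K ≤ ⌊A⌋₊ := Nat.pow_log_le_self 2 hfl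
    have h4 : ((2 ^ K : ℕ) : ℝ) ≤ (⌊A⌋₊ : ℝ) := by exact_mod_cast h3
    push_cast at h4
    have h5 : (2 : ℝ) ^ K ≤ A := h4.trans (Nat.floor_le (by linarith))
    have h6 := Real.log_le_log (by positivity) h5
    rwa [Real.log_pow] at h6
  have hK1 : (K : ℝ) + 1 ≤ 2 * (1 + Real.log A) := by
    have hK0 : (0 : ℝ) ≤ K := Nat.cast_nonneg K
    nlinarith
  set l := 1 + Real.log A with hl
  have hl1 : 1 ≤ l := by linarith
  have hb : 4 * ρ + η * ρ * A * l ≤ 4 * ρ * (1 + η * A) * l := by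
    have h1 : 0 ≤ η * A := by positivity
    have h2 : 0 ≤ η * ρ * A * l := by positivity
    nlinarith
  calc ∑ k ∈ Finset.range (K + 1), ∑ a ∈ T.filter (fun a => a.2.2 = k), hw ρ η a
      ≤ ∑ _k ∈ Finset.range (K + 1), (4 * ρ + η * ρ * A * l) := Finset.sum_le_sum hblock
    _ = ((K : ℝ) + 1) * (4 * ρ + η * ρ * A * l) := by
        rw [Finset.sum_const, Finset.card_range, nsmul_eq_mul]
        push_cast
        ring
    _ ≤ (2 * l) * (4 * ρ * (1 + η * A) * l) :=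
        mul_le_mul hK1 hb (by positivity) (by positivity)
    _ = 8 * ρ * (1 + η * A) * l ^ 2 := by ring
    _ ≤ 8 * ρ * (1 + η * A) * l ^ 3 :=
        mul_le_mul_of_nonneg_left (pow_le_pow_right₀ hl1 (by norm_num)) (by positivity)

end Pool.Agent.H51.FM
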