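import Pool.Agent.H89.FM.Targets2

/-!
# Fourth moment (`MP_52e316_nt`), row IND: the indicator function
-/

set_option autoImplicit false

namespace Pool.Agent.H51.FM

open Pool.Agent.H31.CN Pool.Agent.H89.FM

theorem sum_div_sqf {n : ℕ} (hn : Squarefree n) (x : ℕ → ℝ) :
    ∑ m ∈ n.divisors, ∏ p ∈ m.primeFactors, x p = ∏ p ∈ n.primeFactors, (1 + x p) := by
  rw [Finset.prod_one_add]
  have hn0 : n ≠ 0 := hn.ne_zero
  have hpr : ∀ t ∈ n.primeFactors.powerset, ∀ p ∈ t, p.Prime := fun t ht p hp =>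
    Nat.prime_of_mem_primeFactors (Finset.mem_powerset.1 ht hp)
  refine Finset.sum_bij' (fun m _ => m.primeFactors) (fun t _ => ∏ p ∈ t, p) ?_ ?_ ?_ ?_ ?_
  · intro m hm
    exact Finset.mem_powerset.2 (Nat.primeFactors_mono (Nat.dvd_of_mem_divisors hm) hn0)
  · intro t ht
    refine Nat.mem_divisors.2 ⟨?_, hn0⟩
    have h1 := Finset.prod_dvd_prod_of_subset t n.primeFactors (fun p => p)
      (Finset.mem_powerset.1 ht)
    rwa [Nat.prod_primeFactors_of_squarefree hn] at h1
  · intro m hm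
    exact Nat.prod_primeFactors_of_squarefree
      (hn.squarefree_of_dvd (Nat.dvd_of_mem_divisors hm))
  · intro t ht
    exact Nat.primeFactors_prod (hpr t ht)
  · intro m _
    rfl

theorem pf_IND : T_IND := by
  classical
  intro n L Q hn
  have hn0 : n ≠ 0 := hn.ne_zero
  have h1 : ∑ m ∈ n.divisors, Rn m L Q =
      ∏ p ∈ n.primeFactors, (1 + if Dv p L Q then (p : ℝ) - 1 else -1) :=
    sum_div_sqf hn fun p => if Dv p L Q then (p : ℝ) - 1 else -1
  rw [h1]
  by_cases h : Dv n L Q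
  · have h2 : ∀ p ∈ n.primeFactors, (1 + if Dv p L Q then (p : ℝ) - 1 else -1) = (p : ℝ) := by
      intro p hp
      have h3 : Dv p L Q := fun v hv =>
        dvd_trans (Int.natCast_dvd_natCast.2 (Nat.dvd_of_mem_primeFactors hp)) (h v hv)
      rw [if_pos h3]
      ring
    rw [if_pos h, Finset.prod_congr rfl h2]
    have h4 : ∏ p ∈ n.primeFactors, (p : ℝ) = (n : ℝ) := by
      rw [← Nat.cast_prod, Nat.prod_primeFactors_of_squarefree hn]
    rw [h4, one_div, inv_mul_cancel₀ (Nat.cast_ne_zero.2 hn0)]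
  · rw [if_neg h]
    obtain ⟨p, hp, h5⟩ : ∃ p ∈ n.primeFactors, ¬ Dv p L Q := by
      by_contra hcon
      push Not at hcon
      apply h
      intro v hv
      have h6 : ∏ p ∈ n.primeFactors, p ∣ (val Q v).natAbs :=
        Finset.prod_primes_dvd _ (fun p hp => (Nat.prime_of_mem_primeFactors hp).prime)
          fun p hp => Int.natCast_dvd.1 (hcon p hp v hv)
      rw [Nat.prod_primeFactors_of_squarefree hn] at h6
      exact Int.natCast_dvd.2 h6
    have h7 : ∏ p ∈ n.primeFactors, (1 + if Dv p L Q then (p : ℝ) - 1 else -1) = 0 := by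
      refine Finset.prod_eq_zero hp ?_
      rw [if_neg h5]
      norm_num
    rw [h7, mul_zero]

end Pool.Agent.H51.FM
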