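import Pool.Agent.H89.FM.Targets2

/-!
# Fourth moment (`MP_52e316_nt`), row NI: the number of indices
-/

set_option autoImplicit false

namespace Pool.Agent.H51.FM

open Pool.Agent.H31.CN Pool.Agent.H89.FM

theorem pf_NI (hNW : T_NW) : T_NI := by
  refine ⟨7, by norm_num, ?_⟩
  intro ρ A I hρ hA hI
  have hA0 : 0 < A := by linarith
  have hρ0 : 0 < ρ := by linarith
  set a := ⌊A⌋₊ with ha
  have haA : (a : ℝ) ≤ A := Nat.floor_le hA0.le
  have hnr : ∀ w : ℤ × ℤ, 0 ≤ nr ρ w := fun w => by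
    unfold nr
    positivity
  have hfm : ∀ x ∈ I, 1 ≤ x.2.1.1 ∧ 1 ≤ x.2.2.1 ∧ x.2.1.1 ≤ a ∧ x.2.2.1 ≤ a := by
    intro x hx
    have h := hI x hx
    have hf : 1 ≤ x.2.1.1 := by
      rcases Nat.eq_zero_or_pos x.2.1.1 with h0 | h0
      · have := h.g
        rw [h0] at this
        simp at this
      · exact h0
    have hm : 1 ≤ x.2.2.1 := by
      have := h.j
      omega
    have hf' : (1 : ℝ) ≤ x.2.1.1 := by exact_mod_cast hf
    have hm' : (1 : ℝ) ≤ x.2.2.1 := by exact_mod_cast hm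
    have hle := h.le
    refine ⟨hf, hm, Nat.le_floor ?_, Nat.le_floor ?_⟩ <;> nlinarith
  set W : Finset (ℤ × ℤ) := I.image (fun x => x.1) with hW
  have hWc : (W.card : ℝ) ≤ 1 + 6 * A := by
    have h1 : W ⊆ insert (1, 0) (W.filter fun w => 0 < w.2) := by
      intro w hw
      obtain ⟨x, hx, rfl⟩ := Finset.mem_image.1 hw
      rcases (hI x hx).sgn with h | h
      · exact Finset.mem_insert_of_mem (Finset.mem_filter.2 ⟨hw, h⟩)
      · rw [h]
        exact Finset.mem_insert_self _ _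
    have h2 : (W.card : ℝ) ≤ ((W.filter fun w => 0 < w.2).card : ℝ) + 1 := by
      exact_mod_cast (Finset.card_le_card h1).trans (Finset.card_insert_le _ _)
    have h3 := hNW ρ (2 * A) (W.filter fun w => 0 < w.2) hρ (by linarith) (by
      intro w hw
      obtain ⟨hw1, hw2⟩ := Finset.mem_filter.1 hw
      refine ⟨hw2, ?_⟩
      obtain ⟨x, hx, rfl⟩ := Finset.mem_image.1 hw1
      obtain ⟨g1, g2, g3, g4⟩ := hfm x hx
      have h4 : (1 : ℝ) ≤ x.2.1.1 := by exact_mod_cast g1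
      have h5 : (x.2.2.1 : ℝ) ≤ A := le_trans (by exact_mod_cast g4) haA
      have h6 := (hI x hx).sh
      have h7 := hnr x.1
      nlinarith)
    linarith
  set B : Finset Ix := W ×ˢ ((Finset.Icc 1 a ×ˢ Finset.range (a ^ 2)) ×ˢ
    (Finset.Icc 1 a ×ˢ Finset.range a)) with hB
  have hsub : I ⊆ B := by
    intro x hx
    obtain ⟨g1, g2, g3, g4⟩ := hfm x hx
    have h := hI x hx
    rw [hB, Finset.mem_product, Finset.mem_product, Finset.mem_product, Finset.mem_product,
      Finset.mem_Icc, Finset.mem_range, Finset.mem_Icc, Finset.mem_range]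
    refine ⟨Finset.mem_image_of_mem _ hx, ⟨⟨g1, g3⟩, ?_⟩, ⟨⟨g2, g4⟩, ?_⟩⟩
    · exact h.g.trans_le (Nat.pow_le_pow_left g3 2)
    · exact h.j.trans_le g4
  have hc : I.card ≤ W.card * ((a * a ^ 2) * (a * a)) := by
    refine (Finset.card_le_card hsub).trans (le_of_eq ?_)
    rw [hB, Finset.card_product, Finset.card_product, Finset.card_product, Finset.card_product,
      Nat.card_Icc, Finset.card_range, Finset.card_range, Nat.add_sub_cancel]
  have hc' : (I.card : ℝ) ≤ W.card * (((a : ℝ) * (a : ℝ) ^ 2) * ((a : ℝ) * a)) := by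
    exact_mod_cast hc
  have ha0 : (0 : ℝ) ≤ a := Nat.cast_nonneg a
  calc (I.card : ℝ) ≤ W.card * (((a : ℝ) * (a : ℝ) ^ 2) * ((a : ℝ) * a)) := hc'
    _ = W.card * (a : ℝ) ^ 5 := by ring
    _ ≤ (1 + 6 * A) * A ^ 5 :=
        mul_le_mul hWc (pow_le_pow_left₀ ha0 haA 5) (by positivity) (by positivity)
    _ ≤ (7 * A) * A ^ 5 := mul_le_mul_of_nonneg_right (by linarith) (by positivity)
    _ = 7 * A ^ 6 := by ring

end Pool.Agent.H51.FM
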