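import Pool.Agent.H89.FM.Targets2

/-!
# Fourth moment (`MP_52e316_nt`), row NW: the number of vectors
-/

set_option autoImplicit false

namespace Pool.Agent.H51.FM

open Pool.Agent.H31.CN Pool.Agent.H89.FM

theorem pf_NW : T_NW := by
  intro ρ R F hρ hR h
  rcases F.eq_empty_or_nonempty with rfl | ⟨w0, hw0⟩
  · simp only [Finset.card_empty, Nat.cast_zero]
    positivity
  have hρ0 : 0 < ρ := by linarith
  have h1 : ∀ w ∈ F, (w.1 : ℝ) ^ 2 ≤ R * ρ ∧ (w.2 : ℝ) ^ 2 ≤ R / ρ ∧ (1 : ℝ) ≤ w.2 := by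
    intro w hw
    obtain ⟨h2, h3⟩ := h w hw
    unfold nr at h3
    have h4 : (1 : ℝ) ≤ w.2 := by exact_mod_cast h2
    have h5 : 0 ≤ (w.1 : ℝ) ^ 2 / ρ := by positivity
    have h6 : 0 ≤ ρ * (w.2 : ℝ) ^ 2 := by positivity
    refine ⟨?_, ?_, h4⟩
    · have h7 : (w.1 : ℝ) ^ 2 / ρ ≤ R := by linarith
      rwa [div_le_iff₀ hρ0] at h7
    · rw [le_div_iff₀ hρ0]
      linarith
  have hRρ : ρ ≤ R := by
    obtain ⟨_, h2, h3⟩ := h1 w0 hw0
    rw [le_div_iff₀ hρ0] at h2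
    have h4 : (1 : ℝ) ≤ (w0.2 : ℝ) ^ 2 := one_le_pow₀ h3
    nlinarith
  have hR1 : 1 ≤ R := hρ.trans hRρ
  set a := ⌊Real.sqrt (R * ρ)⌋₊ with ha
  set b := ⌊Real.sqrt (R / ρ)⌋₊ with hb
  have ha' : (a : ℝ) ≤ Real.sqrt (R * ρ) := Nat.floor_le (Real.sqrt_nonneg _)
  have hb' : (b : ℝ) ≤ Real.sqrt (R / ρ) := Nat.floor_le (Real.sqrt_nonneg _)
  have hsub : F ⊆ (Finset.Icc (-(a : ℤ)) a) ×ˢ (Finset.Icc 1 (b : ℤ)) := by
    intro w hw
    obtain ⟨h2, h3, h4⟩ := h1 w hw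
    have h5 : |(w.1 : ℝ)| ≤ Real.sqrt (R * ρ) := Real.abs_le_sqrt h2
    have h6 : |(w.2 : ℝ)| ≤ Real.sqrt (R / ρ) := Real.abs_le_sqrt h3
    have h7 : w.1.natAbs ≤ a := by
      refine Nat.le_floor ?_
      rw [Nat.cast_natAbs, Int.cast_abs]
      exact h5
    have h8 : w.2.natAbs ≤ b := by
      refine Nat.le_floor ?_
      rw [Nat.cast_natAbs, Int.cast_abs]
      exact h6
    have h9 : 0 < w.2 := (h w hw).1
    rw [Finset.mem_product, Finset.mem_Icc, Finset.mem_Icc]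
    refine ⟨⟨?_, ?_⟩, ?_, ?_⟩ <;> omega
  have hcard : (F.card : ℝ) ≤ (2 * a + 1) * b := by
    have h2 := Finset.card_le_card hsub
    rw [Finset.card_product, Int.card_Icc, Int.card_Icc] at h2
    have h3 : ((a : ℤ) + 1 - -(a : ℤ)).toNat = 2 * a + 1 := by omega
    have h4 : ((b : ℤ) + 1 - 1).toNat = b := by omega
    rw [h3, h4] at h2
    exact_mod_cast h2
  have hprod : Real.sqrt (R * ρ) * Real.sqrt (R / ρ) = R := by
    rw [← Real.sqrt_mul (by positivity), show R * ρ * (R / ρ) = R ^ 2 by field_simp,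
      Real.sqrt_sq hR]
  have hsq : Real.sqrt (R / ρ) ≤ R := by
    rw [Real.sqrt_le_left hR]
    rw [div_le_iff₀ hρ0]
    nlinarith
  have hb0 : (0 : ℝ) ≤ b := Nat.cast_nonneg b
  have h2 : (a : ℝ) * b ≤ R := by
    rw [← hprod]
    exact mul_le_mul ha' hb' hb0 (Real.sqrt_nonneg _)
  calc (F.card : ℝ) ≤ (2 * a + 1) * b := hcard
    _ = 2 * (a * b) + b := by ring
    _ ≤ 2 * R + R := by linarith
    _ = 3 * R := by ring

end Pool.Agent.H51.FM
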