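import Pool.Agent.H89.FM.Targets2
import Pool.Agent.H50.CN.ACT

/-!
# Fourth moment (`MP_52e316_nt`), row RED: reduction of positive definite forms
-/

set_option autoImplicit false

open scoped Matrix MatrixGroups

namespace Pool.Agent.H51.FM

open Pool.Agent.H31.CN Pool.Agent.H89.FM

/-- translation -/
def tj (j : ℤ) : SL(2, ℤ) := ⟨!![1, j; 0, 1], by simp [Matrix.det_fin_two]⟩

/-- inversion -/
def sj : SL(2, ℤ) := ⟨!![0, -1; 1, 0], by simp [Matrix.det_fin_two]⟩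

theorem act_tj (Q : QF) (j : ℤ) : act Q (tj j) =
    (Q.1, Q.2.1 + 2 * Q.1 * j, Q.1 * j ^ 2 + Q.2.1 * j + Q.2.2) := by
  have e1 : (tj j) 0 0 = 1 := rfl
  have e2 : (tj j) 0 1 = j := rfl
  have e3 : (tj j) 1 0 = 0 := rfl
  have e4 : (tj j) 1 1 = 1 := rfl
  unfold act val
  rw [e1, e2, e3, e4]
  refine Prod.ext ?_ (Prod.ext ?_ ?_) <;> simp only <;> ring

theorem act_sj (Q : QF) : (act Q sj).1 = Q.2.2 := by
  have e1 : sj 0 0 = 0 := rfl
  have e3 : sj 1 0 = 1 := rfl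
  unfold act val
  rw [e1, e3]
  simp only
  ring

theorem pf_RED : T_RED := by
  intro Q hQ1 hQ2
  have hact := Pool.Agent.H50.CN.pf_ACT
  set Δ : ℕ := (dsc Q).toNat with hΔ
  have hΔ' : (Δ : ℤ) = dsc Q := Int.toNat_of_nonneg hQ2.le
  have hΔ0 : 0 < Δ := by omega
  have hFD : Q ∈ FD Δ := ⟨hQ1, hΔ'.symm⟩
  have hpos : ∀ g : SL(2, ℤ), 0 < (act Q g).1 := fun g =>
    (((hact Q g 1 0).2.2.2.2.2 Δ hΔ0 hFD).1).1
  obtain ⟨g0, hg0⟩ : ∃ g0 : SL(2, ℤ), ∀ g, ((act Q g0).1).toNat ≤ ((act Q g).1).toNat := by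
    have hne : (Set.range fun g : SL(2, ℤ) => ((act Q g).1).toNat).Nonempty :=
      ⟨_, ⟨1, rfl⟩⟩
    obtain ⟨g0, hg0⟩ := Nat.sInf_mem hne
    refine ⟨g0, fun g => ?_⟩
    have h1 : sInf (Set.range fun g : SL(2, ℤ) => ((act Q g).1).toNat) ≤ ((act Q g).1).toNat :=
      Nat.sInf_le ⟨g, rfl⟩
    rw [← hg0] at h1
    exact h1
  have ha := hpos g0
  set a := (act Q g0).1 with haa
  set b := (act Q g0).2.1 with hbb
  set j : ℤ := -((b + a) / (2 * a)) with hj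
  have h1 : act Q (g0 * tj j) = (a, b + 2 * a * j, a * j ^ 2 + b * j + (act Q g0).2.2) := by
    rw [← (hact Q g0 (tj j) 0).2.2.2.1, act_tj]
  refine ⟨g0 * tj j, ?_, ?_⟩
  · rw [h1]
    show |b + 2 * a * j| ≤ a
    have h2 := Int.emod_nonneg (b + a) (show 2 * a ≠ 0 by omega)
    have h3 := Int.emod_lt_of_pos (b + a) (show 0 < 2 * a by omega)
    have h4 := Int.mul_ediv_add_emod (b + a) (2 * a)
    have h5 : b + 2 * a * j = (b + a) % (2 * a) - a := by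
      rw [hj]
      linarith
    rw [h5, abs_le]
    constructor <;> linarith
  · have h2 : (act Q (g0 * tj j)).1 = a := by rw [h1]
    have h3 : (act Q (g0 * tj j * sj)).1 = (act Q (g0 * tj j)).2.2 := by
      rw [← (hact Q (g0 * tj j) sj 0).2.2.2.1, act_sj]
    have h4 := hpos (g0 * tj j * sj)
    have h5 := hg0 (g0 * tj j * sj)
    rw [h3] at h4 h5
    rw [h2]
    have h6 : a.toNat ≤ ((act Q (g0 * tj j)).2.2).toNat := h5
    omega

end Pool.Agent.H51.FM
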