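import Pool.Agent.H61.FM.Targets

/-!
# Fourth moment (`MP_52e316_nt`), row SPT: measurability and growth of the sums of coefficients
-/

set_option autoImplicit false

open MeasureTheory Set Filter NumberField
open scoped Real nonZeroDivisors

namespace Pool.Agent.H51.FM

open Pool.Agent.H31.CN Pool.Agent.H89.FM Pool.Agent.H61.FM

theorem pf_SPT (hDVB : T_DVB) : T_SPT := by
  obtain ⟨C, hC, h⟩ := hDVB 1 one_pos
  refine ⟨C, hC, ?_⟩
  intro K _ _ D hD ψ
  constructor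
  · have h1 : Measurable fun n : ℕ => ∑ k ∈ Finset.Icc 1 n, lm ψ k := measurable_from_nat
    exact h1.comp Nat.measurable_floor
  · intro x hx
    have hx0 : 0 ≤ x := by linarith
    have hfl : (⌊x⌋₊ : ℝ) ≤ x := Nat.floor_le hx0
    have h2 : ∀ n ∈ Finset.Icc 1 ⌊x⌋₊, ‖lm ψ n‖ ≤ C * x := by
      intro n hn
      obtain ⟨h3, h4⟩ := Finset.mem_Icc.1 hn
      have h5 := h K D hD ψ n h3
      rw [Real.rpow_one] at h5
      have h6 : (n : ℝ) ≤ x := le_trans (by exact_mod_cast h4) hfl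
      exact h5.trans (mul_le_mul_of_nonneg_left h6 hC.le)
    calc ‖Sp ψ x‖ ≤ ∑ n ∈ Finset.Icc 1 ⌊x⌋₊, ‖lm ψ n‖ := norm_sum_le _ _
      _ ≤ ∑ _n ∈ Finset.Icc 1 ⌊x⌋₊, C * x := Finset.sum_le_sum h2
      _ = (⌊x⌋₊ : ℝ) * (C * x) := by
          rw [Finset.sum_const, Nat.card_Icc, Nat.add_sub_cancel, nsmul_eq_mul]
      _ ≤ x * (C * x) := mul_le_mul_of_nonneg_right hfl (by positivity)
      _ = C * x ^ 2 := by ring

end Pool.Agent.H51.FM
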