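import Pool.Agent.H89.FM.Targets2

/-!
# Fourth moment (`MP_52e316_nt`), row WSM: the sum of the inverse norms
-/

set_option autoImplicit false

namespace Pool.Agent.H51.FM

open Pool.Agent.H31.CN Pool.Agent.H89.FM

theorem pf_WSM (hNW : T_NW) : T_WSM := by
  have hl2 : 0 < Real.log 2 := Real.log_pos one_lt_two
  have hl2' : Real.log 2 < 1 := by
    have := Real.log_two_lt_d9
    linarith
  refine ⟨6 / Real.log 2, by positivity, ?_⟩
  intro ρ R F hρ hR h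
  have hρ0 : 0 < ρ := by linarith
  have hge : ∀ w ∈ F, 1 ≤ nr ρ w := by
    intro w hw
    obtain ⟨h2, _⟩ := h w hw
    unfold nr
    have h4 : (1 : ℝ) ≤ w.2 := by exact_mod_cast h2
    have h5 : 0 ≤ (w.1 : ℝ) ^ 2 / ρ := by positivity
    have h6 : (1 : ℝ) ≤ (w.2 : ℝ) ^ 2 := one_le_pow₀ h4
    nlinarith
  set K := Nat.log 2 ⌊R⌋₊ with hK
  have hfl : ⌊R⌋₊ ≠ 0 := by
    have : 1 ≤ ⌊R⌋₊ := Nat.le_floor (by simpa using hR)
    omega
  have hmap : ∀ w ∈ F, Nat.log 2 ⌊nr ρ w⌋₊ ∈ Finset.range (K + 1) := by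
    intro w hw
    rw [Finset.mem_range]
    exact Nat.lt_succ_of_le (Nat.log_mono_right (Nat.floor_mono (h w hw).2))
  rw [← Finset.sum_fiberwise_of_maps_to hmap]
  have hblock : ∀ k ∈ Finset.range (K + 1),
      ∑ w ∈ F.filter (fun w => Nat.log 2 ⌊nr ρ w⌋₊ = k), 1 / nr ρ w ≤ 6 := by
    intro k _
    have hb : ∀ w ∈ F.filter (fun w => Nat.log 2 ⌊nr ρ w⌋₊ = k),
        (2 : ℝ) ^ k ≤ nr ρ w ∧ nr ρ w ≤ 2 ^ (k + 1) := by
      intro w hw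
      obtain ⟨hw1, hw2⟩ := Finset.mem_filter.1 hw
      have hg := hge w hw1
      have h3 : ⌊nr ρ w⌋₊ ≠ 0 := by
        have : 1 ≤ ⌊nr ρ w⌋₊ := Nat.le_floor (by simpa using hg)
        omega
      have h4 : 2 ^ k ≤ ⌊nr ρ w⌋₊ := by
        rw [← hw2]
        exact Nat.pow_log_le_self 2 h3
      have h5 : ⌊nr ρ w⌋₊ + 1 ≤ 2 ^ (k + 1) := by
        rw [← hw2]
        exact Nat.lt_pow_succ_log_self one_lt_two _
      have h6 : ((2 ^ k : ℕ) : ℝ) ≤ (⌊nr ρ w⌋₊ : ℝ) := by exact_mod_cast h4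
      have h7 : ((⌊nr ρ w⌋₊ + 1 : ℕ) : ℝ) ≤ ((2 ^ (k + 1) : ℕ) : ℝ) := by exact_mod_cast h5
      push_cast at h6 h7
      have h8 : (⌊nr ρ w⌋₊ : ℝ) ≤ nr ρ w := Nat.floor_le (by linarith)
      have h9 : nr ρ w < (⌊nr ρ w⌋₊ : ℝ) + 1 := Nat.lt_floor_add_one _
      exact ⟨h6.trans h8, h9.le.trans h7⟩
    have hc := hNW ρ (2 ^ (k + 1)) (F.filter (fun w => Nat.log 2 ⌊nr ρ w⌋₊ = k)) hρ
      (by positivity) fun w hw => ⟨(h w (Finset.mem_filter.1 hw).1).1, (hb w hw).2⟩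
    have hp : (0 : ℝ) < 2 ^ k := by positivity
    calc ∑ w ∈ F.filter (fun w => Nat.log 2 ⌊nr ρ w⌋₊ = k), 1 / nr ρ w
        ≤ ∑ _w ∈ F.filter (fun w => Nat.log 2 ⌊nr ρ w⌋₊ = k), 1 / (2 : ℝ) ^ k :=
          Finset.sum_le_sum fun w hw => one_div_le_one_div_of_le hp (hb w hw).1
      _ = ((F.filter (fun w => Nat.log 2 ⌊nr ρ w⌋₊ = k)).card : ℝ) * (1 / (2 : ℝ) ^ k) := by
          rw [Finset.sum_const, nsmul_eq_mul]
      _ ≤ (3 * 2 ^ (k + 1)) * (1 / (2 : ℝ) ^ k) :=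
          mul_le_mul_of_nonneg_right hc (by positivity)
      _ = 6 := by
          rw [pow_succ]
          field_simp
          norm_num
  have hKR : (K : ℝ) * Real.log 2 ≤ Real.log R := by
    have h3 : 2 ^ K ≤ ⌊R⌋₊ := Nat.pow_log_le_self 2 hfl
    have h4 : ((2 ^ K : ℕ) : ℝ) ≤ (⌊R⌋₊ : ℝ) := by exact_mod_cast h3
    push_cast at h4
    have h5 : (2 : ℝ) ^ K ≤ R := h4.trans (Nat.floor_le (by linarith))
    have h6 := Real.log_le_log (by positivity) h5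
    rwa [Real.log_pow] at h6
  calc ∑ k ∈ Finset.range (K + 1),
        ∑ w ∈ F.filter (fun w => Nat.log 2 ⌊nr ρ w⌋₊ = k), 1 / nr ρ w
      ≤ ∑ _k ∈ Finset.range (K + 1), (6 : ℝ) := Finset.sum_le_sum hblock
    _ = ((K : ℝ) + 1) * 6 := by
        rw [Finset.sum_const, Finset.card_range, nsmul_eq_mul]
        push_cast
        ring
    _ ≤ 6 / Real.log 2 * (1 + Real.log R) := by
        rw [div_mul_eq_mul_div, le_div_iff₀ hl2]
        nlinarith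

end Pool.Agent.H51.FM
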